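import Mathlib
import Pool.Agent.Helper36.SPR.St

/-!
# Project SPR, module SQ

Sum-product theorem modulo `p * q` (assembly).
-/

set_option autoImplicit false

namespace Pool.Agent.Helper76.SPR

open Finset
open scoped Pointwise
open Pool.Agent.Helper36.SPR

lemma gd_mono {n : ℕ} {S : Finset (ZMod n)} {L L' : ℝ} {m : ℕ} {c : ZMod n}
    (h : Gd S L m c) (hL : L ≤ L') : Gd S L' m c := by
  obtain ⟨X, hX, h2⟩ := h
  exact ⟨X, hX.trans hL, h2⟩

lemma card_vl {n : ℕ} (S : Finset ((ZMod n)ˣ)) : (vl S).card = S.card := by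
  unfold vl
  exact Finset.card_image_of_injective _ Units.val_injective

lemma vl_nonempty {n : ℕ} {S : Finset ((ZMod n)ˣ)} (h : S.Nonempty) : (vl S).Nonempty := by
  unfold vl
  exact h.image _

/-- a set with fibres of size at most `c` has at least `|B| / c` values -/
lemma card_le_image {α β : Type*} [DecidableEq β] (B : Finset α) (f : α → β) (c : ℝ)
    (h : ∀ v, ((B.filter (fun x => f x = v)).card : ℝ) ≤ c) :
    (B.card : ℝ) ≤ (B.image f).card * c := by
  have h1 : B.card = ∑ v ∈ B.image f, (B.filter (fun x => f x = v)).card :=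
    Finset.card_eq_sum_card_image f B
  have h2 : (B.card : ℝ) = ∑ v ∈ B.image f, ((B.filter (fun x => f x = v)).card : ℝ) := by
    rw [h1]; push_cast; rfl
  rw [h2]
  calc ∑ v ∈ B.image f, ((B.filter (fun x => f x = v)).card : ℝ)
      ≤ ∑ _v ∈ B.image f, c := Finset.sum_le_sum (fun v _ => h v)
    _ = (B.image f).card * c := by rw [Finset.sum_const, nsmul_eq_mul]

lemma image_vl {m n : ℕ} (B : Finset ((ZMod n)ˣ)) :
    (vl B).image (fun x => (ZMod.cast x : ZMod m))
      = B.image (fun c : (ZMod n)ˣ => (ZMod.cast (c : ZMod n) : ZMod m)) := by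
  unfold vl
  rw [Finset.image_image]
  rfl

theorem hSQ (hGC : StGC) (hRT : StRT) (hPV : StPV) (hFB : StFB) (hDB : StDB) (hCQ : StCQ) :
    StSQ := by
  classical
  intro p q _ _ hp hq hpq S M hSne hM hadd hmul hagp hagq hpM hSp hqM
  have hM1 : (1 : ℝ) ≤ M := by linarith
  have hM0 : (0 : ℝ) < M := by linarith
  have hS0 : (0 : ℝ) < S.card := by exact_mod_cast hSne.card_pos
  have hp0 : (0 : ℝ) < p := by exact_mod_cast hp.pos
  have pw : ∀ k : ℕ, 2 * M ^ k ≤ M ^ (k + 1) := fun k => by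
    rw [pow_succ, mul_comm]; exact mul_le_mul_of_nonneg_left hM (by positivity)
  have pm : ∀ k l : ℕ, k ≤ l → M ^ k ≤ M ^ l := fun k l h => pow_le_pow_right₀ hM1 h
  obtain ⟨B, hB1, hB2, hB3⟩ := hRT (p * q) S M hSne hadd hmul
  obtain ⟨hG1, hG2⟩ := hGC (p * q) (vl S) (vl_nonempty hSne)
  have hadd' : ((vl S - vl S).card : ℝ) ≤ M * (vl S).card := by rw [card_vl]; exact hadd
  obtain ⟨hG3, -⟩ := hG2 M hadd'
  rw [card_vl] at hG3
  by_cases hbig : 2 * M ^ 97 ≤ S.card
  swap
  · push Not at hbig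
    have h1 : M * (S.card : ℝ) ≤ M * (2 * M ^ 97) := mul_le_mul_of_nonneg_left hbig.le hM0.le
    have h2 : M * (2 * M ^ 97) ≤ M * M ^ 98 := mul_le_mul_of_nonneg_left (pw 97) hM0.le
    have h3 : M * M ^ 98 = M ^ 99 := by ring
    have h4 := pm 99 110 (by norm_num)
    linarith
  have h24 : 2 * M ^ 4 ≤ S.card := by
    have := pm 4 97 (by norm_num)
    linarith
  -- the good elements
  have g1 : ∀ β ∈ vl B, Gd (vl S) (M ^ 4) 1 β := by
    intro β hβ
    unfold vl at hβ
    obtain ⟨u, hu, rfl⟩ := Finset.mem_image.1 hβ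
    exact gd_mono (hB3 u hu) (pw 3)
  have g2 : ∀ d ∈ vl B - vl B, Gd (vl S) (M ^ 8) 2 d := by
    intro d hd
    obtain ⟨x, hx, y, hy, rfl⟩ := Finset.mem_sub.1 hd
    have h := (hG1 (M ^ 4) (M ^ 4) 1 1 x y (g1 x hx) (g1 y hy)).2.1
    exact gd_mono h (by rw [← pow_add])
  have g3 : ∀ d, Gd (vl S) (M ^ 8) 2 d → ∀ β ∈ vl B, Gd (vl S) (M ^ 20) 4 (d * β) := by
    intro d hd β hβ
    have h := (hG1 (M ^ 4) (M ^ 8) 1 2 β d (g1 β hβ) hd).2.2
    exact gd_mono h (by rw [← pow_mul, ← pow_add])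
  set D : Finset (ZMod (p * q)) :=
    univ.filter (fun c => ((vl S + dil c (vl S)).card : ℝ) ≤ M ^ 97 * S.card) with hDdef
  have hD : (D.card : ℝ) ≤ 4 * M ^ 97 * S.card :=
    hCQ p q hp hq hpq S (M ^ 97) M (by positivity) hM1 hbig h24 hagp hagq hpM hqM D
      (fun c hc => (mem_filter.1 hc).2)
  have hD2 : (D.card : ℝ) ≤ M ^ 99 * S.card := by
    refine hD.trans ?_
    have h1 := pw 97
    have h2 := pw 98
    simp only [Nat.reduceAdd] at h1 h2
    exact mul_le_mul_of_nonneg_right (by linarith) hS0.le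
  have inD : ∀ (L : ℝ) (m : ℕ) (c : ZMod (p * q)), Gd (vl S) L m c → L * M ^ (2 * m + 1) ≤ M ^ 97 →
      c ∈ D := by
    intro L m c hc hL
    rw [hDdef, mem_filter]
    refine ⟨mem_univ _, (hG3 L m c hc).trans ?_⟩
    exact mul_le_mul_of_nonneg_right hL hS0.le
  by_cases hex : ∃ x ∈ vl B, ∃ y ∈ vl B, x ≠ y ∧ ¬ IsUnit (x - y)
  · obtain ⟨x, hx, y, hy, hxy, hnu⟩ := hex
    have hd0 : x - y ≠ 0 := sub_ne_zero.2 hxy
    have hdg : Gd (vl S) (M ^ 8) 2 (x - y) := g2 _ (Finset.sub_mem_sub hx hy)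
    have hsub : dil (x - y) (vl B) + vl B ⊆ D := by
      intro z hz
      obtain ⟨w, hw, β', hβ', rfl⟩ := Finset.mem_add.1 hz
      unfold dil at hw
      obtain ⟨β, hβ, rfl⟩ := Finset.mem_image.1 hw
      have h := (hG1 (M ^ 20) (M ^ 4) 4 1 _ β' (g3 _ hdg β hβ) (g1 β' hβ')).1
      refine inD _ _ _ h ?_
      rw [← pow_add, ← pow_add]
      exact pm _ _ (by norm_num)
    have hcard := hDB p q hp hq (ne_of_lt hpq) (vl B) (x - y) hd0 hnu
    have hcard2 := hcard.trans (Finset.card_le_card hsub)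
    have hPf : (B.card : ℝ) ≤ ((vl B).image (fun x => (ZMod.cast x : ZMod p))).card * (2 * M ^ 2) := by
      rw [image_vl]
      exact card_le_image B _ _ (hFB p (p * q) S B M (dvd_mul_right p q) hSne hB2 hagp)
    have hQf : (B.card : ℝ) ≤ ((vl B).image (fun x => (ZMod.cast x : ZMod q))).card * (2 * M ^ 2) := by
      rw [image_vl]
      exact card_le_image B _ _ (hFB q (p * q) S B M (dvd_mul_left q p) hSne hB2 hagq)
    set P : ℝ := (((vl B).image (fun x => (ZMod.cast x : ZMod p))).card : ℝ) with hPdef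
    set Q : ℝ := (((vl B).image (fun x => (ZMod.cast x : ZMod q))).card : ℝ) with hQdef
    have hPQ : P * Q ≤ D.card := by
      rw [hPdef, hQdef]; exact_mod_cast hcard2
    have hP0 : 0 ≤ P := by rw [hPdef]; positivity
    have hQ0 : 0 ≤ Q := by rw [hQdef]; positivity
    have hpP : (p : ℝ) ≤ 4 * M ^ 3 * P := by
      have h1 : (S.card : ℝ) ≤ 4 * M ^ 2 * P := by nlinarith
      calc (p : ℝ) ≤ M * S.card := hpM
        _ ≤ M * (4 * M ^ 2 * P) := mul_le_mul_of_nonneg_left h1 hM0.le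
        _ = 4 * M ^ 3 * P := by ring
    have hpQ : (p : ℝ) ≤ 4 * M ^ 3 * Q := by
      have h1 : (S.card : ℝ) ≤ 4 * M ^ 2 * Q := by nlinarith
      calc (p : ℝ) ≤ M * S.card := hpM
        _ ≤ M * (4 * M ^ 2 * Q) := mul_le_mul_of_nonneg_left h1 hM0.le
        _ = 4 * M ^ 3 * Q := by ring
    have hpp : (p : ℝ) * p ≤ M ^ 110 * p := by
      have e1 : (p : ℝ) * p ≤ (4 * M ^ 3 * P) * (4 * M ^ 3 * Q) :=
        mul_le_mul hpP hpQ hp0.le (by positivity)
      have e2 : (4 * M ^ 3 * P) * (4 * M ^ 3 * Q) = 16 * M ^ 6 * (P * Q) := by ring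
      have e3 : 16 * M ^ 6 * (P * Q) ≤ 16 * M ^ 6 * (M ^ 99 * S.card) :=
        mul_le_mul_of_nonneg_left (hPQ.trans hD2) (by positivity)
      have e4 : 16 * M ^ 6 * (M ^ 99 * S.card) ≤ 16 * M ^ 6 * (M ^ 99 * (M * p)) := by gcongr
      have e5 : (16 : ℝ) ≤ M ^ 4 := by
        have h1 := pw 0
        have h2 := pw 1
        have h3 := pw 2
        have h4 := pw 3
        simp only [pow_zero] at h1
        norm_num at h1 h2 h3 h4
        linarith
      have e6 : 16 * M ^ 6 * (M ^ 99 * (M * p)) ≤ M ^ 4 * M ^ 6 * (M ^ 99 * (M * p)) := by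
        gcongr
      have e7 : M ^ 4 * M ^ 6 * (M ^ 99 * (M * p)) = M ^ 110 * p := by ring
      linarith
    exact le_of_mul_le_mul_right hpp hp0
  · push Not at hex
    have h4S : (4 : ℝ) ≤ S.card := by
      have h1 := pm 1 97 (by norm_num)
      rw [pow_one] at h1
      linarith
    have hB2' : 2 ≤ (vl B).card := by
      rw [card_vl]
      have : (2 : ℝ) ≤ B.card := by linarith
      exact_mod_cast this
    rcases hPV (p * q) (vl B) hB2' hex with h1 | h1
    · exfalso
      obtain ⟨a, ha, b, hb, hbu, hab⟩ := h1 ((p : ℕ) : ZMod (p * q))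
      obtain ⟨x, hx, y, hy, rfl⟩ := Finset.mem_sub.1 ha
      have hq1 : 1 < q := hq.one_lt
      have hp1 : 1 < p := hp.one_lt
      have hpne : ((p : ℕ) : ZMod (p * q)) ≠ 0 := by
        intro h0
        rw [ZMod.natCast_eq_zero_iff] at h0
        have := Nat.le_of_dvd hp.pos h0
        nlinarith
      have hane : x - y ≠ 0 := by
        rw [hab]
        intro h0
        exact hpne ((hbu.mul_left_eq_zero).1 h0)
      have hxy : x ≠ y := sub_ne_zero.1 hane
      have hu := hex x hx y hy hxy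
      rw [hab] at hu
      have hpu : IsUnit ((p : ℕ) : ZMod (p * q)) := isUnit_of_mul_isUnit_left hu
      rw [ZMod.isUnit_iff_coprime] at hpu
      have h2 : p ∣ Nat.gcd p (p * q) := Nat.dvd_gcd dvd_rfl (dvd_mul_right p q)
      rw [Nat.Coprime] at hpu
      rw [hpu] at h2
      have := Nat.le_of_dvd one_pos h2
      omega
    · obtain ⟨a, ha, b, hb, hbu, hcard⟩ := h1
      have hab : Gd (vl S) (M ^ 16) 4 (a + b) := by
        have h := (hG1 (M ^ 8) (M ^ 8) 2 2 a b (g2 a ha) (g2 b hb)).1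
        exact gd_mono h (by rw [← pow_add])
      have hsub : dil b (vl B) + dil (a + b) (vl B) ⊆ D := by
        intro z hz
        obtain ⟨w, hw, w', hw', rfl⟩ := Finset.mem_add.1 hz
        unfold dil at hw hw'
        obtain ⟨β, hβ, rfl⟩ := Finset.mem_image.1 hw
        obtain ⟨β', hβ', rfl⟩ := Finset.mem_image.1 hw'
        have k1 := g3 b (g2 b hb) β hβ
        have k2 := (hG1 (M ^ 4) (M ^ 16) 1 4 β' (a + b) (g1 β' hβ') hab).2.2
        have k3 := (hG1 _ _ _ _ _ _ k1 k2).1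
        refine inD _ _ _ k3 ?_
        rw [← pow_mul, ← pow_add, ← pow_add, ← pow_add]
        exact pm _ _ (by norm_num)
      have hcard2 := hcard.trans (Finset.card_le_card hsub)
      rw [card_vl] at hcard2
      have hcard3 : (B.card : ℝ) * B.card ≤ D.card := by exact_mod_cast hcard2
      have hSS : (S.card : ℝ) * S.card ≤ (4 * M ^ 99) * S.card := by nlinarith
      have hS4 : (S.card : ℝ) ≤ 4 * M ^ 99 := le_of_mul_le_mul_right hSS hS0
      have hS5 : (S.card : ℝ) ≤ M ^ 101 := by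
        have h1 := pw 99
        have h2 := pw 100
        simp only [Nat.reduceAdd] at h1 h2
        linarith
      calc (p : ℝ) ≤ M * S.card := hpM
        _ ≤ M * M ^ 101 := mul_le_mul_of_nonneg_left hS5 hM0.le
        _ = M ^ 102 := by ring
        _ ≤ M ^ 110 := pm _ _ (by norm_num)

end Pool.Agent.Helper76.SPR
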